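import Mathlib
import Pool.Agent.Helper58.PS.Defs
import Pool.Agent.Helper78.ST.Pre

/-!
# Project PS2: `λ` of a product of few cluster primes
-/

set_option autoImplicit false

namespace Pool.Agent.Helper13.PS

open Finset Pool.Agent.Helper6.Lehmer Pool.Agent.Helper6.LehmerCount Pool.Agent.Helper58.LT

theorem lam_prod_finset (F : Finset ℕ) (hF : ∀ p ∈ F, p.Prime) :
    lam (∏ p ∈ F, p) = ∑ p ∈ F, lam p := by
  classical
  induction F using Finset.induction_on with
  | empty => simp [lam_one]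
  | insert a s ha ih =>
    have hs : ∀ p ∈ s, p.Prime := fun p hp => hF p (mem_insert_of_mem hp)
    rw [prod_insert ha, sum_insert ha, lam_mul (hF a (mem_insert_self _ _)).pos
      (Finset.prod_pos fun p hp => (hs p hp).pos), ih hs]
    apply Nat.Coprime.prod_right
    intro p hp
    rw [Nat.coprime_primes (hF a (mem_insert_self _ _)) (hs p hp)]
    rintro rfl
    exact ha hp

theorem lam_prime_le {p : ℕ} (hp : p.Prime) : lam p ≤ 2 / p := by
  have h2 : (2 : ℝ) ≤ p := by exact_mod_cast hp.two_le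
  have h1 : (0 : ℝ) < (p : ℝ) - 1 := by linarith
  rw [lam_prime hp]
  have h3 := Real.log_le_sub_one_of_pos (show (0 : ℝ) < (p : ℝ) / ((p : ℝ) - 1) by positivity)
  refine h3.trans ?_
  rw [div_sub_one h1.ne', div_le_div_iff₀ h1 (by linarith)]
  nlinarith

/-- `λ(f)` for a product `f` of `i` primes of size at least `2^b e^{-T}` -/
theorem lam_few (F : Finset ℕ) (hF : ∀ p ∈ F, p.Prime) (b : ℕ) (T : ℝ)
    (hT : ∀ p ∈ F, (b : ℝ) * Real.log 2 - T ≤ Real.log p) :
    lam (∏ p ∈ F, p) ≤ 2 * #F * Real.exp T / (2 : ℝ) ^ b := by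
  rw [lam_prod_finset F hF]
  have h1 : ∀ p ∈ F, lam p ≤ 2 * Real.exp T / (2 : ℝ) ^ b := by
    intro p hp
    have hp0 : (0 : ℝ) < p := by exact_mod_cast (hF p hp).pos
    refine (lam_prime_le (hF p hp)).trans ?_
    have h2 : (2 : ℝ) ^ b / Real.exp T ≤ p := by
      rw [← Real.log_le_log_iff (by positivity) hp0, Real.log_div (by positivity) (Real.exp_pos _).ne',
        Real.log_pow, Real.log_exp]
      exact hT p hp
    rw [div_le_iff₀ (Real.exp_pos _)] at h2
    rw [div_le_div_iff₀ hp0 (by positivity)]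
    nlinarith
  refine (Finset.sum_le_sum h1).trans (le_of_eq ?_)
  rw [Finset.sum_const, nsmul_eq_mul]
  ring

end Pool.Agent.Helper13.PS
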