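import Mathlib
import Pool.Agent.Helper73.HM.FixedQ
import Pool.Agent.Helper73.HM.Numeric
import Pool.Agent.Helper58.LT.Cover
import Pool.Agent.Helper84.VM.Final

/-!
# PS-1 (HMs): the high moments of `e(α log (q / (q - 1)))`, with shifts of length `q ^ (3/4)`

`k ≥ 8`: the loss in Vinogradov's mean value theorem is at most `1/8` (`eta8`, `vmvt8`), and with shifts of
length `Y = q ^ (3/4)` the exponent is `2 k ^ 3 + 2 - (3/4) (7/8) = 2 k ^ 3 + 43/32 ≤ 2 k ^ 3 + 11/8`.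
-/

set_option autoImplicit false

namespace Pool.Agent.Helper58.PS

open Finset Pool.Agent.Helper58.LT Pool.Agent.Helper73.HM

theorem eta8' (k : ℕ) (hk : 11 ≤ k) :
    (k : ℝ) * (k + 1) / 2 * (1 - 1 / (k : ℝ)) ^ (k ^ 2 - (k + 1) / 2) ≤ 1 / 8 := by
  have hk7 : (11 : ℝ) ≤ k := by exact_mod_cast hk
  have hk0 : (0 : ℝ) < k := by linarith
  have hq0 : (0 : ℝ) < 1 - 1 / (k : ℝ) := by
    rw [sub_pos, div_lt_one hk0]
    linarith
  have hq1 : 1 - 1 / (k : ℝ) ≤ 1 := by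
    have : (0 : ℝ) ≤ 1 / (k : ℝ) := by positivity
    linarith
  have hhalf : (1 - 1 / (k : ℝ)) ^ k ≤ 1 / 2 := by
    have hB := one_add_mul_le_pow (a := 1 / ((k : ℝ) - 1)) (by
      have : (0 : ℝ) < 1 / ((k : ℝ) - 1) := by
        apply div_pos one_pos
        linarith
      linarith) k
    have h1 : (2 : ℝ) ≤ (1 + 1 / ((k : ℝ) - 1)) ^ k := by
      refine le_trans ?_ hB
      have h2 : (1 : ℝ) ≤ (k : ℝ) * (1 / ((k : ℝ) - 1)) := by
        rw [mul_one_div, le_div_iff₀ (by linarith)]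
        linarith
      linarith
    have h3 : (1 - 1 / (k : ℝ)) = (1 + 1 / ((k : ℝ) - 1))⁻¹ := by
      have hk1 : (k : ℝ) - 1 ≠ 0 := by linarith
      have hk2 : (k : ℝ) ≠ 0 := by linarith
      have e1 : 1 + 1 / ((k : ℝ) - 1) = k / (k - 1) := by
        rw [eq_div_iff hk1, add_mul, div_mul_cancel₀ _ hk1]
        ring
      rw [e1, inv_div, sub_div, div_self hk2]
    rw [h3, inv_pow]
    refine (inv_anti₀ (by norm_num) h1).trans ?_
    norm_num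
  have he : k * (k - 1) ≤ k ^ 2 - (k + 1) / 2 := by
    have h1 : (k + 1) / 2 ≤ k := by omega
    have h2 : k * (k - 1) = k ^ 2 - k := by
      rw [Nat.mul_sub, mul_one, sq]
    rw [h2]
    omega
  have h1 : (1 - 1 / (k : ℝ)) ^ (k ^ 2 - (k + 1) / 2) ≤ (1 / 2) ^ (k - 1) := by
    calc (1 - 1 / (k : ℝ)) ^ (k ^ 2 - (k + 1) / 2) ≤ (1 - 1 / (k : ℝ)) ^ (k * (k - 1)) :=
          pow_le_pow_of_le_one hq0.le hq1 he
      _ = ((1 - 1 / (k : ℝ)) ^ k) ^ (k - 1) := by rw [pow_mul]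
      _ ≤ (1 / 2) ^ (k - 1) := pow_le_pow_left₀ (by positivity) hhalf _
  have h2 : (4 : ℝ) * (k * (k + 1)) ≤ 2 ^ (k - 1) := by
    have h3 : ∀ n : ℕ, 4 * ((n + 11) * (n + 11 + 1)) ≤ 2 ^ (n + 10) := by
      intro n
      induction n with
      | zero => norm_num
      | succ n ih =>
        calc 4 * ((n + 1 + 11) * (n + 1 + 11 + 1)) ≤ 2 * (4 * ((n + 11) * (n + 11 + 1))) := by nlinarith
          _ ≤ 2 * 2 ^ (n + 10) := Nat.mul_le_mul_left 2 ih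
          _ = 2 ^ (n + 1 + 10) := by ring
    obtain ⟨n, rfl⟩ := Nat.exists_eq_add_of_le hk
    have h4 := h3 n
    have h5 : 11 + n - 1 = n + 10 := by omega
    rw [h5]
    have h6 : (4 * ((11 + n) * (11 + n + 1)) : ℕ) ≤ 2 ^ (n + 10) := by
      rw [Nat.add_comm 11 n]
      exact h4
    exact_mod_cast h6
  have h3 : (0 : ℝ) ≤ (k : ℝ) * (k + 1) / 2 := by positivity
  calc (k : ℝ) * (k + 1) / 2 * (1 - 1 / (k : ℝ)) ^ (k ^ 2 - (k + 1) / 2)
      ≤ (k : ℝ) * (k + 1) / 2 * (1 / 2) ^ (k - 1) := mul_le_mul_of_nonneg_left h1 h3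
    _ ≤ 2 ^ (k - 1) / 8 * (1 / 2) ^ (k - 1) :=
        mul_le_mul_of_nonneg_right (by linarith) (by positivity)
    _ = 1 / 8 := by
        rw [one_div, inv_pow, div_mul_eq_mul_div, mul_inv_cancel₀ (by positivity)]

theorem eta8 (k : ℕ) (hk : 8 ≤ k) :
    (k : ℝ) * (k + 1) / 2 * (1 - 1 / (k : ℝ)) ^ (k ^ 2 - (k + 1) / 2) ≤ 1 / 8 := by
  rcases Nat.lt_or_ge k 11 with h | h
  · interval_cases k <;> norm_num
  · exact eta8' k h

theorem vmvt8 (k : ℕ) (hk : 8 ≤ k) (X : ℕ) (hX : 1 ≤ X) :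
    (JV (k ^ 3) k X : ℝ) ≤ Real.exp (26 * (k : ℝ) ^ 10) *
      (X : ℝ) ^ ((2 : ℝ) * (k : ℝ) ^ 3 - (k : ℝ) * (k + 1) / 2 + 1 / 8) := by
  have hX1 : (1 : ℝ) ≤ X := by exact_mod_cast hX
  have hk2 : 2 ≤ k := by omega
  have hle : (k + 1) / 2 ≤ k ^ 2 := by
    have : (k + 1) / 2 ≤ k := by omega
    nlinarith
  have h := Helper84.VM.iter k hk2 (k ^ 2 - (k + 1) / 2) (by omega) X hX
  have e1 : (k + 1) / 2 + (k ^ 2 - (k + 1) / 2) = k ^ 2 := by omega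
  have e2 : k * k ^ 2 = k ^ 3 := by ring
  rw [e1, e2] at h
  refine h.trans ?_
  have h5 : (2 : ℝ) ^ (26 * k ^ 6 * (k ^ 2 - (k + 1) / 2)) ≤ Real.exp (26 * (k : ℝ) ^ 10) := by
    have h6 : (2 : ℝ) ≤ Real.exp 1 := by
      have := Real.add_one_le_exp (1 : ℝ)
      linarith
    calc (2 : ℝ) ^ (26 * k ^ 6 * (k ^ 2 - (k + 1) / 2))
        ≤ (Real.exp 1) ^ (26 * k ^ 6 * (k ^ 2 - (k + 1) / 2)) :=
          pow_le_pow_left₀ (by norm_num) h6 _
      _ ≤ (Real.exp 1) ^ (26 * k ^ 10) := by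
          apply pow_le_pow_right₀ (Real.one_le_exp (by norm_num))
          have h7 : k ^ 2 - (k + 1) / 2 ≤ k ^ 4 := by
            have h8 : k ^ 2 ≤ k ^ 4 := Nat.pow_le_pow_right (by omega) (by norm_num)
            omega
          calc 26 * k ^ 6 * (k ^ 2 - (k + 1) / 2) ≤ 26 * k ^ 6 * k ^ 4 :=
                Nat.mul_le_mul_left _ h7
            _ = 26 * k ^ 10 := by ring
      _ = Real.exp (26 * (k : ℝ) ^ 10) := by
          rw [← Real.exp_nat_mul]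
          congr 1
          push_cast
          ring
  have h8 : (X : ℝ) ^ ((2 : ℝ) * ((k ^ 3 : ℕ) : ℝ) - (k : ℝ) * (k + 1) / 2 +
      (k : ℝ) * (k + 1) / 2 * (1 - 1 / (k : ℝ)) ^ (k ^ 2 - (k + 1) / 2)) ≤
      (X : ℝ) ^ ((2 : ℝ) * (k : ℝ) ^ 3 - (k : ℝ) * (k + 1) / 2 + 1 / 8) := by
    apply Real.rpow_le_rpow_of_exponent_le hX1
    have := eta8 k hk
    push_cast
    linarith
  exact mul_le_mul h5 h8 (by positivity) (by positivity)

/-- the covering by intervals of length `Y` -/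
theorem cover_bound' (Q N H s Y : ℕ) (hQ : 1 ≤ Q) (hH : 1 ≤ H) (hs : 1 ≤ s) (hYQ : Y ≤ Q)
    (I : Finset ℕ) (hI : I ⊆ Icc Q (H * Q)) (M : ℕ)
    (hM : ∀ q, Q - Y ≤ q → q ≤ H * Q → Js (Icc (q + 1) (q + Y)) (psq N) s ≤ M) :
    Y ^ (2 * s) * Js I (psq N) s ≤ (H * Q) ^ (2 * s) * M := by
  classical
  have hHQ : Q ≤ H * Q := Nat.le_mul_of_pos_left Q (by omega)
  set Qs : Finset ℕ := Icc (Q - Y) (H * Q - 1) with hQs
  set T : ℕ → Finset ℕ := fun q => {i ∈ I | q + 1 ≤ i ∧ i ≤ q + Y} with hT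
  have hTI : ∀ q ∈ Qs, T q ⊆ I := fun q _ => Finset.filter_subset _ _
  have hTc : ∀ i ∈ I, #{q ∈ Qs | i ∈ T q} = Y := by
    intro i hi
    have hi' := mem_Icc.mp (hI hi)
    have hset : {q ∈ Qs | i ∈ T q} = Icc (i - Y) (i - 1) := by
      ext q
      simp only [hQs, hT, mem_filter, mem_Icc]
      constructor
      · rintro ⟨⟨h1, h2⟩, h3, h4, h5⟩
        omega
      · rintro ⟨h1, h2⟩
        refine ⟨⟨by omega, by omega⟩, hi, by omega, by omega⟩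
    rw [hset, Nat.card_Icc]
    omega
  have h1 := cover_holder_int I (psq N) Qs T Y hTI hTc s hs
  refine h1.trans ?_
  have hcard : #Qs ≤ H * Q := by
    rw [hQs, Nat.card_Icc]; omega
  have hsum : ∑ q ∈ Qs, Js (T q) (psq N) s ≤ (H * Q) * M := by
    calc ∑ q ∈ Qs, Js (T q) (psq N) s ≤ ∑ q ∈ Qs, M := by
          apply Finset.sum_le_sum
          intro q hq
          have hq' := mem_Icc.mp hq
          refine le_trans ?_ (hM q hq'.1 (by omega))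
          unfold Js
          apply en_mono
          intro x hx
          rw [mem_tup] at hx ⊢
          intro a
          have := (mem_filter.mp (hx a)).2
          rw [mem_Icc]; exact this
      _ = #Qs * M := by rw [Finset.sum_const, smul_eq_mul]
      _ ≤ (H * Q) * M := Nat.mul_le_mul_right _ hcard
  calc #Qs ^ (2 * s - 1) * ∑ q ∈ Qs, Js (T q) (psq N) s
      ≤ (H * Q) ^ (2 * s - 1) * ((H * Q) * M) := Nat.mul_le_mul (Nat.pow_le_pow_left hcard _) hsum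
    _ = (H * Q) ^ (2 * s) * M := by
        rw [← mul_assoc, ← pow_succ]
        congr 2
        omega

theorem prod_bound' (k F Y q0 : ℕ) (z : ℝ) (hz : 1 ≤ z) (hF : 1 ≤ F) (hYz : (Y : ℝ) ≤ z ^ 3)
    (hq0 : 3 / 4 * z ^ 4 ≤ q0) :
    ((∏ i : Fin k, (if (i : ℕ) = 0 then 1 else (2 * (F * Y ^ ((i : ℕ) + 1)) / q0 + 1)) : ℕ) : ℝ) ≤
      (4 * F) ^ k * z ^ (∑ i ∈ Finset.range k, (3 * i - 1)) := by
  have hF1 : (1 : ℝ) ≤ F := by exact_mod_cast hF
  have hq0' : (0 : ℝ) < q0 := lt_of_lt_of_le (by positivity) hq0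
  rw [Nat.cast_prod]
  calc ∏ i : Fin k, (((if (i : ℕ) = 0 then 1 else (2 * (F * Y ^ ((i : ℕ) + 1)) / q0 + 1)) : ℕ) : ℝ)
      ≤ ∏ i : Fin k, (4 * (F : ℝ) * z ^ (3 * (i : ℕ) - 1)) := by
        apply Finset.prod_le_prod
        · intro i _; positivity
        · intro i _
          have hyp : (1 : ℝ) ≤ z ^ (3 * (i : ℕ) - 1) := one_le_pow₀ hz
          split_ifs with h0
          · push_cast
            nlinarith
          · have h1 : ((2 * (F * Y ^ ((i : ℕ) + 1)) / q0 : ℕ) : ℝ) ≤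
                (2 * ((F : ℝ) * (Y : ℝ) ^ ((i : ℕ) + 1))) / q0 := by
              refine Nat.cast_div_le.trans ?_
              push_cast
              exact le_refl _
            have h2 : (Y : ℝ) ^ ((i : ℕ) + 1) ≤ z ^ (3 * (i : ℕ) - 1) * z ^ 4 := by
              rw [← pow_add]
              have : 3 * (i : ℕ) - 1 + 4 = 3 * ((i : ℕ) + 1) := by omega
              rw [this, pow_mul]
              exact pow_le_pow_left₀ (by positivity) hYz _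
            have h3 : (2 * ((F : ℝ) * (Y : ℝ) ^ ((i : ℕ) + 1))) / q0 ≤
                8 / 3 * F * z ^ (3 * (i : ℕ) - 1) := by
              rw [div_le_iff₀ hq0']
              calc 2 * ((F : ℝ) * (Y : ℝ) ^ ((i : ℕ) + 1))
                  ≤ 2 * ((F : ℝ) * (z ^ (3 * (i : ℕ) - 1) * z ^ 4)) := by gcongr
                _ = 8 / 3 * F * z ^ (3 * (i : ℕ) - 1) * (3 / 4 * z ^ 4) := by ring
                _ ≤ 8 / 3 * F * z ^ (3 * (i : ℕ) - 1) * q0 := by gcongr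
            push_cast
            have h4 : (1 : ℝ) ≤ 4 / 3 * F * z ^ (3 * (i : ℕ) - 1) := by nlinarith
            linarith
    _ = (4 * F) ^ k * z ^ (∑ i ∈ Finset.range k, (3 * i - 1)) := by
        rw [Finset.prod_mul_distrib, Finset.prod_const, Finset.card_univ, Fintype.card_fin]
        congr 1
        rw [← Finset.prod_pow_eq_pow_sum, ← Fin.prod_univ_eq_prod_range (fun i => z ^ (3 * i - 1)) k]

theorem t_bound' (k s q N Y : ℕ) (z X : ℝ) (hz : 1 ≤ z) (hYz : (Y : ℝ) ≤ z ^ 3)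
    (hq : 3 / 4 * z ^ 4 ≤ q) (hqX : (q : ℝ) ≤ X) (hN : 1 ≤ N) (hNz : (N : ℝ) ≤ z ^ (k + 2)) :
    ((k + 1).factorial : ℝ) * (q : ℝ) ^ (k + 1) * (s / N + 6 * s * ((Y : ℝ) / q) ^ (k + 2)) ≤
      ((k + 1).factorial : ℝ) * X ^ (k + 1) * (7 * s * (4 / 3) ^ (k + 2) / N) := by
  have hN0 : (0 : ℝ) < N := by exact_mod_cast hN
  have hz0 : 0 < z := by linarith
  have hq0 : (0 : ℝ) < q := lt_of_lt_of_le (by positivity) hq
  have h1 : (Y : ℝ) / q ≤ (4 / 3) / z := by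
    rw [div_le_div_iff₀ hq0 hz0]
    calc (Y : ℝ) * z ≤ z ^ 3 * z := by gcongr
      _ = 4 / 3 * (3 / 4 * z ^ 4) := by ring
      _ ≤ 4 / 3 * q := by gcongr
  have h2 : ((Y : ℝ) / q) ^ (k + 2) ≤ (4 / 3) ^ (k + 2) / N := by
    calc ((Y : ℝ) / q) ^ (k + 2) ≤ ((4 / 3) / z) ^ (k + 2) := pow_le_pow_left₀ (by positivity) h1 _
      _ = (4 / 3) ^ (k + 2) / z ^ (k + 2) := by rw [div_pow]
      _ ≤ (4 / 3) ^ (k + 2) / N := by
          apply div_le_div_of_nonneg_left (by positivity) hN0 hNz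
  have h3 : (s : ℝ) / N ≤ s * ((4 / 3) ^ (k + 2) / N) := by
    rw [mul_div_assoc']
    apply div_le_div_of_nonneg_right _ hN0.le
    have : (1 : ℝ) ≤ (4 / 3) ^ (k + 2) := one_le_pow₀ (by norm_num)
    nlinarith [Nat.cast_nonneg (α := ℝ) s]
  have h4 : (s : ℝ) / N + 6 * s * ((Y : ℝ) / q) ^ (k + 2) ≤ 7 * s * (4 / 3) ^ (k + 2) / N := by
    have h5 : 6 * (s : ℝ) * ((Y : ℝ) / q) ^ (k + 2) ≤ 6 * s * ((4 / 3) ^ (k + 2) / N) :=
      mul_le_mul_of_nonneg_left h2 (by positivity)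
    calc (s : ℝ) / N + 6 * s * ((Y : ℝ) / q) ^ (k + 2)
        ≤ s * ((4 / 3) ^ (k + 2) / N) + 6 * s * ((4 / 3) ^ (k + 2) / N) := add_le_add h3 h5
      _ = 7 * s * (4 / 3) ^ (k + 2) / N := by ring
  have hX : (q : ℝ) ^ (k + 1) ≤ X ^ (k + 1) := pow_le_pow_left₀ hq0.le hqX _
  have h6 : 0 ≤ (s : ℝ) / N + 6 * s * ((Y : ℝ) / q) ^ (k + 2) := by positivity
  calc ((k + 1).factorial : ℝ) * (q : ℝ) ^ (k + 1) * (s / N + 6 * s * ((Y : ℝ) / q) ^ (k + 2))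
      ≤ ((k + 1).factorial : ℝ) * X ^ (k + 1) * (s / N + 6 * s * ((Y : ℝ) / q) ^ (k + 2)) := by
        gcongr
    _ ≤ _ := by
        apply mul_le_mul_of_nonneg_left h4
        have : 0 ≤ X := hq0.le.trans hqX
        positivity

theorem sum_pred3 (k : ℕ) (hk : 1 ≤ k) :
    ((∑ i ∈ Finset.range k, (3 * i - 1) : ℕ) : ℝ) = ((k : ℝ) - 1) * (3 * (k : ℝ) - 2) / 2 := by
  obtain ⟨m, rfl⟩ := Nat.exists_eq_add_of_le' hk
  induction m with
  | zero => simp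
  | succ n ih =>
    rw [Finset.sum_range_succ, Nat.cast_add, ih (by omega)]
    have h3 : ((3 * (n + 1) - 1 : ℕ) : ℝ) = 3 * (n : ℝ) + 2 := by
      have : 3 * (n + 1) - 1 = 3 * n + 2 := by omega
      rw [this]
      push_cast
      ring
    rw [h3]
    push_cast
    ring

/-- PS-1: HM with shift length `Q^(3/4)` -/
theorem HMs : ∃ C : ℝ, 0 < C ∧ ∀ k Q N H : ℕ, 8 ≤ k → 256 ≤ Q → 1 ≤ N → 1 ≤ H →
      (N : ℝ) ≤ (Q : ℝ) ^ (((k : ℝ) + 2) / 4) →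
      ∀ I : Finset ℕ, I ⊆ Icc Q (H * Q) →
        (Js I (Pool.Agent.Helper73.HM.psq N) (k ^ 3) : ℝ) ≤
          Real.exp (C * (k : ℝ) ^ 10) * (H : ℝ) ^ (4 * k ^ 3) *
          (Q : ℝ) ^ ((2 : ℝ) * (k : ℝ) ^ 3 + 11 / 8) / N := by
  refine ⟨26 + 21, by norm_num, ?_⟩
  intro k Q N H hk hQ hN hH hNQ I hI
  obtain ⟨C, hC⟩ : ∃ C : ℝ, C = 26 := ⟨_, rfl⟩
  rw [← hC]
  set s := k ^ 3 with hs
  set F := (k + 1).factorial * s with hF
  have hs1 : 1 ≤ s := Nat.one_le_pow _ _ (by omega)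
  have hF1 : 1 ≤ F := Nat.one_le_iff_ne_zero.mpr
    (Nat.mul_ne_zero (Nat.factorial_pos _).ne' (by omega))
  have hQ0 : (0 : ℝ) ≤ Q := Nat.cast_nonneg _
  have hQR : (256 : ℝ) ≤ Q := by exact_mod_cast hQ
  set z : ℝ := (Q : ℝ) ^ ((1 : ℝ) / 4) with hz
  have hz4 : z ^ 4 = Q := by
    rw [hz, ← Real.rpow_natCast, ← Real.rpow_mul hQ0]
    norm_num
  have hz0 : 0 < z := by
    rw [hz]; exact Real.rpow_pos_of_pos (by linarith) _
  have hzge : 4 ≤ z := by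
    by_contra hcon
    push Not at hcon
    have h1 : z ^ 4 < 4 ^ 4 := pow_lt_pow_left₀ hcon hz0.le (by norm_num)
    rw [hz4] at h1
    norm_num at h1
    linarith
  have hz1 : 1 ≤ z := by linarith
  set y : ℝ := z ^ 3 with hy
  have hy0 : 0 < y := by positivity
  have hy64 : 64 ≤ y := by
    rw [hy]
    calc (64 : ℝ) = 4 ^ 3 := by norm_num
      _ ≤ z ^ 3 := pow_le_pow_left₀ (by norm_num) hzge 3
  set Y := ⌊y⌋₊ with hY
  have hYy : (Y : ℝ) ≤ y := Nat.floor_le hy0.le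
  have hYy' : 3 / 4 * y ≤ Y := by
    have := Nat.lt_floor_add_one y
    rw [← hY] at this
    linarith
  have hY4 : 4 * Y ≤ Q := by
    have h1 : (4 : ℝ) * Y ≤ Q := by
      rw [← hz4]
      calc (4 : ℝ) * Y ≤ z * z ^ 3 := by
            rw [← hy]
            exact mul_le_mul hzge hYy (Nat.cast_nonneg _) hz0.le
        _ = z ^ 4 := by ring
    exact_mod_cast h1
  have hY1 : 1 ≤ Y := by
    have : (0 : ℝ) < Y := lt_of_lt_of_le (by positivity) hYy'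
    have : 0 < Y := by exact_mod_cast this
    omega
  have hN0 : (0 : ℝ) < N := by exact_mod_cast hN
  have hNz : (N : ℝ) ≤ z ^ (k + 2) := by
    refine hNQ.trans (le_of_eq ?_)
    rw [hz, ← Real.rpow_natCast, ← Real.rpow_mul hQ0]
    congr 1
    push_cast; ring
  -- T
  set R1 : ℝ := ((k + 1).factorial : ℝ) * ((H : ℝ) * Q) ^ (k + 1) *
    (7 * s * (4 / 3) ^ (k + 2) / N) with hR1
  set T : ℕ := ⌈R1⌉₊ with hT
  have hTR : R1 ≤ T := Nat.le_ceil _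
  set P0 : ℕ := ∏ i : Fin k, (if (i : ℕ) = 0 then 1 else
    (2 * (F * Y ^ ((i : ℕ) + 1)) / (Q - Y) + 1)) with hP0
  set M : ℕ := ((2 * T + 1) * P0) * JV s k Y with hM
  have hq34 : ∀ q : ℕ, Q - Y ≤ q → 3 / 4 * z ^ 4 ≤ (q : ℝ) := by
    intro q hq
    have h1 : 3 * Q ≤ 4 * q := by omega
    have h2 : (3 : ℝ) * Q ≤ 4 * q := by exact_mod_cast h1
    rw [hz4]; linarith
  have hMb : ∀ q, Q - Y ≤ q → q ≤ H * Q → Js (Icc (q + 1) (q + Y)) (psq N) s ≤ M := by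
    intro q hq1 hq2
    have hq2' : (q : ℝ) ≤ (H : ℝ) * Q := by exact_mod_cast hq2
    have h1 := t_bound' k s q N Y z ((H : ℝ) * Q) hz1 hYy (hq34 q hq1) hq2' hN hNz
    have h2 := fixed_q k q Y N s hN hY1 (by omega) T (h1.trans hTR)
    refine h2.trans ?_
    rw [hM, hP0]
    apply Nat.mul_le_mul_right
    apply Nat.mul_le_mul_left
    apply Finset.prod_le_prod'
    intro i _
    split_ifs with h0
    · exact le_refl _
    · apply Nat.add_le_add_right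
      rw [hF]
      exact Nat.div_le_div_left hq1 (by omega)
  have hcov := cover_bound' Q N H s Y (by omega) hH hs1 (by omega) I hI M hMb
  -- real form
  have hcov' : (Y : ℝ) ^ (2 * s) * (Js I (psq N) s : ℝ) ≤ ((H : ℝ) * Q) ^ (2 * s) * M := by
    exact_mod_cast hcov
  -- bound for M
  have hR1pos : 1 ≤ R1 := by
    have h1 : (1 : ℝ) ≤ ((k + 1).factorial : ℝ) := by exact_mod_cast Nat.factorial_pos _
    have h2 : (1 : ℝ) ≤ (H : ℝ) := by exact_mod_cast hH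
    have h3 : (N : ℝ) ≤ ((H : ℝ) * Q) ^ (k + 1) := by
      calc (N : ℝ) ≤ z ^ (k + 2) := hNz
        _ ≤ z ^ (4 * (k + 1)) := pow_le_pow_right₀ hz1 (by omega)
        _ = (Q : ℝ) ^ (k + 1) := by rw [pow_mul, hz4]
        _ ≤ ((H : ℝ) * Q) ^ (k + 1) := pow_le_pow_left₀ hQ0 (by nlinarith) _
    have h4 : (1 : ℝ) ≤ (4 / 3) ^ (k + 2) := one_le_pow₀ (by norm_num)
    have h5 : (1 : ℝ) ≤ (s : ℝ) := by exact_mod_cast hs1
    have h6 : (1 : ℝ) / N ≤ 7 * s * (4 / 3) ^ (k + 2) / N := by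
      apply div_le_div_of_nonneg_right _ hN0.le
      nlinarith [mul_le_mul h5 h4 (by norm_num) (by positivity)]
    calc (1 : ℝ) = 1 * N * (1 / N) := by field_simp
      _ ≤ ((k + 1).factorial : ℝ) * ((H : ℝ) * Q) ^ (k + 1) * (7 * s * (4 / 3) ^ (k + 2) / N) := by
          gcongr
  have hT5 : (2 * (T : ℝ) + 1) ≤ 5 * R1 := by
    have := Nat.ceil_lt_add_one (show 0 ≤ R1 by linarith)
    linarith
  have hP : (P0 : ℝ) ≤ (4 * F) ^ k * z ^ (∑ i ∈ Finset.range k, (3 * i - 1)) :=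
    prod_bound' k F Y (Q - Y) z hz1 hF1 hYy (hq34 (Q - Y) le_rfl)
  set e : ℝ := (2 : ℝ) * (k : ℝ) ^ 3 - (k : ℝ) * ((k : ℝ) + 1) / 2 + 1 / 8 with he
  have hk2 : (2 : ℝ) ≤ k := by
    have : 2 ≤ k := by omega
    exact_mod_cast this
  have he0 : 0 ≤ e := by
    rw [he]
    have h7 : (k : ℝ) ^ 3 = k * k * k := by ring
    rw [h7]
    nlinarith [mul_nonneg (show (0 : ℝ) ≤ k - 2 by linarith) (show (0 : ℝ) ≤ (k : ℝ) * k by positivity),
      mul_nonneg (show (0 : ℝ) ≤ k - 2 by linarith) (show (0 : ℝ) ≤ (k : ℝ) by positivity)]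
  have hJ : (JV s k Y : ℝ) ≤ Real.exp (C * (k : ℝ) ^ 10) * y ^ e := by
    rw [hC]
    refine (vmvt8 k hk Y hY1).trans ?_
    apply mul_le_mul_of_nonneg_left _ (Real.exp_pos _).le
    exact Real.rpow_le_rpow (Nat.cast_nonneg _) hYy he0
  have hMr : (M : ℝ) ≤ 5 * R1 * ((4 * F) ^ k * z ^ (∑ i ∈ Finset.range k, (3 * i - 1))) *
      (Real.exp (C * (k : ℝ) ^ 10) * y ^ e) := by
    rw [hM]
    push_cast
    have ha : 0 ≤ 5 * R1 := by linarith
    gcongr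
  -- conclusion
  have hYs : (3 / 4 * y) ^ (2 * s) * (Js I (psq N) s : ℝ) ≤ ((H : ℝ) * Q) ^ (2 * s) * M := by
    refine le_trans ?_ hcov'
    gcongr
  have hpos : 0 < (3 / 4 * y) ^ (2 * s) := by positivity
  have hconst := const_le C k H (by omega) hH
  rw [← hs] at hconst
  have hs' : ((s : ℕ) : ℝ) = (k : ℝ) ^ 3 := by rw [hs]; push_cast; ring
  have hF' : ((F : ℕ) : ℝ) = ((k + 1).factorial : ℝ) * (k : ℝ) ^ 3 := by
    rw [hF]; push_cast; rw [hs']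
  -- powers of z
  have hpow : ((Q : ℝ)) ^ (2 * s) * (Q : ℝ) ^ (k + 1) *
      z ^ (∑ i ∈ Finset.range k, (3 * i - 1)) * y ^ e ≤
      y ^ (2 * s) * (Q : ℝ) ^ ((2 : ℝ) * (k : ℝ) ^ 3 + 11 / 8) := by
    have e1 : (Q : ℝ) ^ ((2 : ℝ) * (k : ℝ) ^ 3 + 11 / 8) =
        z ^ (4 * ((2 : ℝ) * (k : ℝ) ^ 3 + 11 / 8)) := by
      rw [← hz4, ← Real.rpow_natCast, ← Real.rpow_mul hz0.le]; norm_num
    have e2 : y ^ e = z ^ (3 * e) := by
      rw [hy, ← Real.rpow_natCast z 3, ← Real.rpow_mul hz0.le]; norm_num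
    rw [e1, e2, ← hz4, hy, ← pow_mul, ← pow_mul, ← pow_mul, ← Real.rpow_natCast z (4 * (2 * s)),
      ← Real.rpow_natCast z (4 * (k + 1)),
      ← Real.rpow_natCast z (∑ i ∈ Finset.range k, (3 * i - 1)),
      ← Real.rpow_natCast z (3 * (2 * s)), sum_pred3 k (by omega), ← Real.rpow_add hz0,
      ← Real.rpow_add hz0, ← Real.rpow_add hz0, ← Real.rpow_add hz0]
    apply Real.rpow_le_rpow_of_exponent_le hz1
    rw [he]
    push_cast
    rw [hs']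
    nlinarith
  have hfin : ((H : ℝ) * Q) ^ (2 * s) * M ≤ (3 / 4 * y) ^ (2 * s) *
      (Real.exp ((C + 21) * (k : ℝ) ^ 10) * (H : ℝ) ^ (4 * s) *
          (Q : ℝ) ^ ((2 : ℝ) * (k : ℝ) ^ 3 + 11 / 8) / N) := by
    calc ((H : ℝ) * Q) ^ (2 * s) * M
        ≤ ((H : ℝ) * Q) ^ (2 * s) * (5 * R1 * ((4 * F) ^ k *
          z ^ (∑ i ∈ Finset.range k, (3 * i - 1))) * (Real.exp (C * (k : ℝ) ^ 10) * y ^ e)) := by
          gcongr
      _ = ((H : ℝ) ^ (2 * s) * (H : ℝ) ^ (k + 1) * (35 * (k : ℝ) ^ 3 * (4 / 3) ^ (k + 2) *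
            ((k + 1).factorial : ℝ) * (4 * ((k + 1).factorial : ℝ) * (k : ℝ) ^ 3) ^ k *
            Real.exp (C * (k : ℝ) ^ 10))) *
          ((Q : ℝ) ^ (2 * s) * (Q : ℝ) ^ (k + 1) *
            z ^ (∑ i ∈ Finset.range k, (3 * i - 1)) * y ^ e) / N := by
          rw [hR1, hF', hs', mul_pow (H : ℝ), mul_pow (H : ℝ)]
          ring
      _ ≤ (Real.exp ((C + 21) * (k : ℝ) ^ 10) * (H : ℝ) ^ (4 * s) * (3 / 4) ^ (2 * s)) *
          (y ^ (2 * s) * (Q : ℝ) ^ ((2 : ℝ) * (k : ℝ) ^ 3 + 11 / 8)) / N := by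
          gcongr
      _ = _ := by
          rw [mul_pow]
          ring
  have := hYs.trans hfin
  exact le_of_mul_le_mul_left this hpos

end Pool.Agent.Helper58.PS
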