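import Mathlib
import Pool.Agent.Helper58.PS.Defs
import Pool.Agent.Helper78.ST.Pre
import Pool.Agent.Helper13.PS.LamF

/-!
# Project PS2, PS-5c1: small lemmas on `Lset` and `lam`
-/

set_option autoImplicit false

namespace Pool.Agent.Helper58.PS

open Finset Pool.Agent.Helper6.Lehmer Pool.Agent.Helper6.LehmerCount Pool.Agent.Helper58.LT
open Pool.Agent.Helper6.PW

/-- PS-5c1 (helper13): `Lset` is monotone in `W` -/
theorem Lset_mono {k w W : ℕ} {H : ℝ} {a m : ℕ} (hH : 0 < H) (hw : 1 ≤ w) (hW : w ≤ W)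
    (hm : m ∈ Lset k w H a) : m ∈ Lset k W H a := by
  classical
  unfold Lset at hm ⊢
  rw [mem_filter] at hm ⊢
  obtain ⟨h0, h1, h2, h3, h4, h5⟩ := hm
  have hWR : (w : ℝ) ≤ W := by exact_mod_cast hW
  refine ⟨h0, h1, h2.trans hW, ?_, h4, ?_⟩
  · refine lt_of_le_of_lt ?_ h3
    have : 2 * (w : ℝ) / H ≤ 2 * W / H := by
      apply div_le_div_of_nonneg_right _ hH.le
      linarith
    linarith
  · intro Y hY1 hY2
    rcases Nat.lt_or_ge Y (2 * w * m) with h6 | h6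
    · obtain ⟨d, hd1, hd2, hd3⟩ := h5 Y hY1 h6
      refine ⟨d, hd1, hd2, lt_of_lt_of_le hd3 ?_⟩
      exact Nat.mul_le_mul_right d (Nat.mul_le_mul_left 2 hW)
    · refine ⟨m, dvd_rfl, ?_, hY2⟩
      refine le_trans ?_ h6
      calc m = 1 * m := (one_mul m).symm
        _ ≤ 2 * w * m := Nat.mul_le_mul_right m (by omega)

/-- PS-5c1 (helper13): the empty product -/
theorem one_mem {n k w W : ℕ} (h : Idx n k) (hw : 1 ≤ w) (hc : n.primeFactors.card ≤ w)
    (hW : w ≤ W) : 1 ∈ Lset k W ((2 : ℝ) ^ 0) (2 ^ 0) := by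
  classical
  have hk := h.index_le
  have hk2 := h.two_le
  have hkR : (2 : ℝ) ≤ k := by exact_mod_cast hk2
  have hkW : (k : ℝ) ≤ W + 1 := by exact_mod_cast (by omega : k ≤ W + 1)
  have hW1 : (1 : ℝ) ≤ W := by exact_mod_cast (hw.trans hW)
  unfold Lset
  rw [mem_filter, mem_Ico]
  refine ⟨⟨by norm_num, by norm_num⟩, squarefree_one, by simp, ?_, ?_, ?_⟩
  · rw [lam_one]
    have h1 := Real.log_le_sub_one_of_pos (show (0 : ℝ) < k by linarith)
    rw [pow_zero, div_one]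
    linarith
  · rw [lam_one]
    exact Real.log_pos (by linarith)
  · intro Y hY1 hY2
    exact ⟨1, dvd_rfl, hY1, hY2⟩

/-- PS-5c1 (helper13): the initial product below a prime that is not tiny -/
theorem sm_memW {n k w W q : ℕ} (h : Idx n k) (hw : 1 ≤ w) (hc : n.primeFactors.card ≤ w)
    (hW : w ≤ W) (hq : q ∈ n.primeFactors) (hq5 : 5 * (w : ℝ) < Real.log q) :
    sm q n ∈ Lset k W ((2 : ℝ) ^ Nat.log 2 q) (2 ^ Nat.log 2 (sm q n)) ∧
      (2 : ℝ) ^ Nat.log 2 q ≤ 4 * W * 2 ^ Nat.log 2 (sm q n) := by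
  have hqp := Nat.prime_of_mem_primeFactors hq
  have hqR : (0 : ℝ) < q := by exact_mod_cast hqp.pos
  have hm0 : 0 < sm q n := sm_pos q n
  have hlog : 2 ^ Nat.log 2 q ≤ q := Nat.pow_log_le_self 2 hqp.pos.ne'
  have ha : 2 ^ Nat.log 2 (sm q n) ≤ sm q n := Nat.pow_log_le_self 2 hm0.ne'
  have ha2 : sm q n < 2 * 2 ^ Nat.log 2 (sm q n) := by
    have := Nat.lt_pow_succ_log_self (b := 2) (by norm_num) (sm q n)
    rw [pow_succ] at this
    omega
  constructor
  · refine Lset_mono (by positivity) hw hW ?_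
    refine sm_mem h hc hq ?_ (by positivity) ?_ ha ha2
    · have h1 := Real.log_le_sub_one_of_pos hqR
      have h2 : (2 : ℝ) * w ≤ q := by
        have : (0 : ℝ) ≤ w := Nat.cast_nonneg _
        linarith
      exact_mod_cast h2
    · exact_mod_cast hlog
  · have h1 := h.prime_le hq
    have h2 : 2 ^ Nat.log 2 q ≤ 4 * W * 2 ^ Nat.log 2 (sm q n) := by
      calc 2 ^ Nat.log 2 q ≤ q := hlog
        _ ≤ 2 * n.primeFactors.card * sm q n := h1.le
        _ ≤ 2 * W * (2 * 2 ^ Nat.log 2 (sm q n)) :=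
            Nat.mul_le_mul (Nat.mul_le_mul_left 2 (hc.trans hW)) ha2.le
        _ = 4 * W * 2 ^ Nat.log 2 (sm q n) := by ring
    exact_mod_cast h2

/-- PS-5c1 (helper13): a product of few large primes has a small `lam` -/
theorem lam_small {n : ℕ} {F : Finset ℕ} (hF : F ⊆ n.primeFactors) {R : ℝ} (hR : 0 < R)
    (hlo : ∀ p ∈ F, R ≤ p) : lam (∏ p ∈ F, p) ≤ 2 * #F / R := by
  have hp : ∀ p ∈ F, p.Prime := fun p hp => Nat.prime_of_mem_primeFactors (hF hp)
  rw [Pool.Agent.Helper13.PS.lam_prod_finset F hp]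
  have h1 : ∀ p ∈ F, lam p ≤ 2 / R := by
    intro p hpF
    refine (Pool.Agent.Helper13.PS.lam_prime_le (hp p hpF)).trans ?_
    exact div_le_div_of_nonneg_left (by norm_num) hR (hlo p hpF)
  refine (Finset.sum_le_sum h1).trans (le_of_eq ?_)
  rw [Finset.sum_const, nsmul_eq_mul]
  ring

end Pool.Agent.Helper58.PS
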