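import Mathlib
import Pool.Agent.Helper58.PS.Defs
import Pool.Agent.Helper78.ST.Pre
import Pool.Agent.Helper13.PS.LamF

/-!
# Project PS2: assembling `DataC` and `ConC` from a partition of the prime factors
-/

set_option autoImplicit false

namespace Pool.Agent.Helper13.PS

open Finset Pool.Agent.Helper6.Lehmer Pool.Agent.Helper6.LehmerCount Pool.Agent.Helper58.LT
open Pool.Agent.Helper58.PS Pool.Agent.Helper78.ST

/-- `n = m g q b₁ b₂ f` with `m, b₁, b₂, f` the products of `M, J₁, J₂, F` and `g` the product of the other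
primes different from `q` -/
theorem mkC {n l k W μ θ' b q : ℕ} {M J₁ J₂ F : Finset ℕ} (h : Idx n k) (hn : n ≤ 2 ^ l)
    (hMS : M ⊆ n.primeFactors) (hJ₁S : J₁ ⊆ n.primeFactors) (hJ₂S : J₂ ⊆ n.primeFactors)
    (hFS : F ⊆ n.primeFactors) (hqS : q ∈ n.primeFactors)
    (dMJ₁ : Disjoint M J₁) (dMJ₂ : Disjoint M J₂) (dMF : Disjoint M F) (dJJ : Disjoint J₁ J₂)
    (dJ₁F : Disjoint J₁ F) (dJ₂F : Disjoint J₂ F)
    (qM : q ∉ M) (qJ₁ : q ∉ J₁) (qJ₂ : q ∉ J₂) (qF : q ∉ F)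
    (hM : ∏ p ∈ M, p ∈ Lset k W ((2 : ℝ) ^ θ') (2 ^ μ)) (hgrow : (2 : ℝ) ^ θ' ≤ 4 * W * 2 ^ μ)
    (hb : b ≤ l) (hJ₁ : ls J₁ ≤ ((b : ℝ) - θ') / 2 * Real.log 2 + W)
    (hJ₂ : ls J₂ ≤ ((b : ℝ) - θ') / 2 * Real.log 2 + W)
    (hF0 : 0 < ls F) (hD : (l : ℝ) * Real.log 2 ≤ 2 * (Real.log n - ls F))
    (hlam : lam (∏ p ∈ F, p) ≤ Real.exp W / (2 : ℝ) ^ b)
    (hsize : Real.log n - ls F - ls J₁ - ls J₂ ≤
      ((l : ℝ) / 2 - (b : ℝ) / 2 + θ' + W) * Real.log 2)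
    (hthird : 3 * Real.log q ≤ ((b : ℝ) + W) * Real.log 2) :
    ∃ ν θ, ν ≤ l ∧ θ ≤ l ∧ ConC l W μ ν θ' θ b ∧ DataC n l W k μ ν θ' θ b ∧ q < 2 ^ (θ + 1) := by
  classical
  have l20 : 0 < Real.log 2 := Real.log_pos (by norm_num)
  have hn1 := h.lehmer.one_lt
  have hn0 : 0 < n := by omega
  have hnR : (0 : ℝ) < n := by exact_mod_cast hn0
  have hsq := h.lehmer.squarefree
  have hqp := Nat.prime_of_mem_primeFactors hqS
  obtain ⟨S, hS⟩ : ∃ S, S = n.primeFactors := ⟨_, rfl⟩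
  rw [← hS] at hMS hJ₁S hJ₂S hFS hqS
  obtain ⟨U, hU⟩ : ∃ U, U = M ∪ ({q} ∪ (J₁ ∪ (J₂ ∪ F))) := ⟨_, rfl⟩
  have hUS : U ⊆ S := by
    rw [hU]
    refine union_subset hMS (union_subset ?_ (union_subset hJ₁S (union_subset hJ₂S hFS)))
    rw [singleton_subset_iff]
    exact hqS
  have hRS : S \ U ⊆ n.primeFactors := by rw [← hS]; exact sdiff_subset
  have d1 : Disjoint J₂ F := dJ₂F
  have d2 : Disjoint J₁ (J₂ ∪ F) := by
    rw [disjoint_union_right]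
    exact ⟨dJJ, dJ₁F⟩
  have d3 : Disjoint ({q} : Finset ℕ) (J₁ ∪ (J₂ ∪ F)) := by
    rw [disjoint_singleton_left, mem_union, mem_union]
    rintro (h1 | h1 | h1)
    · exact qJ₁ h1
    · exact qJ₂ h1
    · exact qF h1
  have d4 : Disjoint M ({q} ∪ (J₁ ∪ (J₂ ∪ F))) := by
    rw [disjoint_union_right, disjoint_union_right, disjoint_union_right]
    refine ⟨?_, dMJ₁, dMJ₂, dMF⟩
    rw [disjoint_singleton_right]
    exact qM
  obtain ⟨m, hm⟩ : ∃ m, m = ∏ p ∈ M, p := ⟨_, rfl⟩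
  obtain ⟨g, hg⟩ : ∃ g, g = ∏ p ∈ S \ U, p := ⟨_, rfl⟩
  obtain ⟨b₁, hb₁⟩ : ∃ b₁, b₁ = ∏ p ∈ J₁, p := ⟨_, rfl⟩
  obtain ⟨b₂, hb₂⟩ : ∃ b₂, b₂ = ∏ p ∈ J₂, p := ⟨_, rfl⟩
  obtain ⟨f, hf⟩ : ∃ f, f = ∏ p ∈ F, p := ⟨_, rfl⟩
  rw [hS] at hMS hJ₁S hJ₂S hFS
  have hm0 : 0 < m := by rw [hm]; exact prod_sub_pos hMS
  have hg0 : 0 < g := by rw [hg]; exact prod_sub_pos hRS
  have hb₁0 : 0 < b₁ := by rw [hb₁]; exact prod_sub_pos hJ₁S
  have hb₂0 : 0 < b₂ := by rw [hb₂]; exact prod_sub_pos hJ₂S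
  have hf0 : 0 < f := by rw [hf]; exact prod_sub_pos hFS
  have hmR : (0 : ℝ) < m := by exact_mod_cast hm0
  have hgR : (0 : ℝ) < g := by exact_mod_cast hg0
  have hb₁R : (0 : ℝ) < b₁ := by exact_mod_cast hb₁0
  have hb₂R : (0 : ℝ) < b₂ := by exact_mod_cast hb₂0
  have hfR : (0 : ℝ) < f := by exact_mod_cast hf0
  have hqR : (0 : ℝ) < q := by exact_mod_cast hqp.pos
  have hlsM : ls M = Real.log m := by rw [hm]; exact ls_prod _ (sub_pos hMS)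
  have hlsJ₁ : ls J₁ = Real.log b₁ := by rw [hb₁]; exact ls_prod _ (sub_pos hJ₁S)
  have hlsJ₂ : ls J₂ = Real.log b₂ := by rw [hb₂]; exact ls_prod _ (sub_pos hJ₂S)
  have hlsF : ls F = Real.log f := by rw [hf]; exact ls_prod _ (sub_pos hFS)
  -- the factorisation
  have hfac : n = m * g * q * b₁ * b₂ * f := by
    have e1 : ∏ p ∈ U, p = m * (q * (b₁ * (b₂ * f))) := by
      rw [hU, prod_union d4, prod_union d3, prod_union d2, prod_union d1, prod_singleton, ← hm, ← hb₁,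
        ← hb₂, ← hf]
    have e2 : g * ∏ p ∈ U, p = n := by
      rw [hg, ← prod_union sdiff_disjoint, sdiff_union_of_subset hUS, hS]
      exact Nat.prod_primeFactors_of_squarefree hsq
    rw [e1] at e2
    rw [← e2]
    ring
  have hlogn : Real.log n = Real.log m + Real.log g + Real.log q + Real.log b₁ + Real.log b₂ +
      Real.log f := by
    rw [hfac]
    push_cast
    rw [Real.log_mul (by positivity) hfR.ne', Real.log_mul (by positivity) hb₂R.ne',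
      Real.log_mul (by positivity) hb₁R.ne', Real.log_mul (by positivity) hqR.ne',
      Real.log_mul hmR.ne' hgR.ne']
  obtain ⟨D, hDdef⟩ : ∃ D, D = m * g * q * b₁ * b₂ := ⟨_, rfl⟩
  have hD0 : 0 < D := by
    rw [hDdef]
    exact Nat.mul_pos (Nat.mul_pos (Nat.mul_pos (Nat.mul_pos hm0 hg0) hqp.pos) hb₁0) hb₂0
  have hDR : (0 : ℝ) < D := by exact_mod_cast hD0
  have hlogD : Real.log D = Real.log n - ls F := by
    rw [hlogn, hlsF, hDdef]
    push_cast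
    rw [Real.log_mul (by positivity) hb₂R.ne',
      Real.log_mul (by positivity) hb₁R.ne', Real.log_mul (by positivity) hqR.ne',
      Real.log_mul hmR.ne' hgR.ne']
    ring
  obtain ⟨ν, hν⟩ : ∃ ν, ν = Nat.log 2 g := ⟨_, rfl⟩
  obtain ⟨θ, hθ⟩ : ∃ θ, θ = Nat.log 2 q := ⟨_, rfl⟩
  obtain ⟨hν1, hν2⟩ := natlog_bounds hg0
  rw [← hν] at hν1 hν2
  obtain ⟨hθ1, hθ2⟩ := natlog_bounds hqp.pos
  rw [← hθ] at hθ1 hθ2
  have hgn : g ≤ n := by rw [hg]; exact prod_sub_le hn0 hRS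
  have hqn : q ≤ n := Nat.le_of_mem_primeFactors (hS ▸ hqS)
  have hνl : ν ≤ l := by rw [hν]; exact natlog_le (hgn.trans hn)
  have hθl : θ ≤ l := by rw [hθ]; exact natlog_le (hqn.trans hn)
  have hg1 : 2 ^ ν ≤ g := by rw [hν]; exact Nat.pow_log_le_self 2 hg0.ne'
  have hg2 : g < 2 ^ (ν + 1) := by rw [hν]; exact Nat.lt_pow_succ_log_self (by norm_num) g
  have hq1 : 2 ^ θ ≤ q := by rw [hθ]; exact Nat.pow_log_le_self 2 hqp.pos.ne'
  have hq2 : q < 2 ^ (θ + 1) := by rw [hθ]; exact Nat.lt_pow_succ_log_self (by norm_num) q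
  have hμ : (μ : ℝ) * Real.log 2 ≤ Real.log m := by
    have h1 : ∏ p ∈ M, p ∈ Lset k W ((2 : ℝ) ^ θ') (2 ^ μ) := hM
    unfold Lset at h1
    rw [mem_filter, mem_Ico, ← hm] at h1
    have h2 : ((2 : ℝ) ^ μ) ≤ m := by exact_mod_cast h1.1.1
    have h3 := Real.log_le_log (by positivity) h2
    rwa [Real.log_pow] at h3
  have hbj : ∀ x : ℝ, 0 < x → Real.log x ≤ ((b : ℝ) - θ') / 2 * Real.log 2 + W →
      x ≤ (2 : ℝ) ^ (((b : ℝ) - θ') / 2) * Real.exp W := by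
    intro x hx h1
    rw [← Real.log_le_log_iff hx (by positivity), Real.log_mul (by positivity) (Real.exp_pos _).ne',
      Real.log_exp, Real.log_rpow (by norm_num)]
    exact h1
  refine ⟨ν, θ, hνl, hθl, ⟨?_, ?_, hgrow, hb⟩, ⟨m, g, q, b₁, b₂, f, hfac, ?_, hg1, hg2, hqp, hq1, hq2,
    hbj b₁ hb₁R ?_, hbj b₂ hb₂R ?_, ?_, ?_, ?_⟩, hq2⟩
  · have h1 : ((μ : ℝ) + ν + θ) * Real.log 2 ≤
        ((l : ℝ) / 2 - (b : ℝ) / 2 + θ' + W) * Real.log 2 := by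
      rw [hlogn, hlsF, hlsJ₁, hlsJ₂] at hsize
      linarith
    exact le_of_mul_le_mul_right h1 l20
  · have h1 : (3 * (θ : ℝ)) * Real.log 2 ≤ ((b : ℝ) + W) * Real.log 2 := by linarith
    exact le_of_mul_le_mul_right h1 l20
  · rw [hm]; exact hM
  · rw [← hlsJ₁]; exact hJ₁
  · rw [← hlsJ₂]; exact hJ₂
  · rw [hlsF] at hF0
    by_contra hcon
    have h2 : (f : ℝ) ≤ 1 := by exact_mod_cast (by omega : f ≤ 1)
    have h3 := Real.log_nonpos hfR.le h2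
    linarith
  · rw [← hDdef]
    have h2 : Real.log ((2 : ℝ) ^ l) ≤ Real.log ((D : ℝ) ^ 2) := by
      rw [Real.log_pow, Real.log_pow, hlogD]
      push_cast
      exact hD
    have h3 := (Real.log_le_log_iff (by positivity) (by positivity)).1 h2
    exact_mod_cast h3
  · rw [← hDdef]
    have h1 : n = D * f := by rw [hDdef]; exact hfac
    have h2 : lam n = lam D + lam f := by
      rw [h1]
      apply lam_mul_of_squarefree
      rw [← h1]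
      exact hsq
    have h3 := (lam_idx h.eq (by omega)).1
    rw [← hf] at hlam
    linarith

end Pool.Agent.Helper13.PS
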